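import Pool.Agent.H99.Stab

namespace Pool.Agent.Results.MP_7af562_mp.Q1

open Pool.Agent.H99.StabDefs Pool.Agent.H99.Stab

/-- Generators `ZZZZI, XXIIX, IIXXX`. -/
def SA : Fin 3 → Fin 5 → Fin 4 := ![![3, 3, 3, 3, 0], ![1, 1, 0, 0, 1], ![0, 0, 1, 1, 1]]

/-- Generators `ZZIZX, XIZXI, IXXYI`. -/
def SB : Fin 3 → Fin 5 → Fin 4 := ![![3, 3, 0, 3, 1], ![1, 0, 3, 1, 0], ![0, 1, 1, 2, 0]]

theorem result : ¬ LUEquiv (codespace SA) (codespace SB) := by
  refine not_equiv SA SB ?_ ?_ (by decide) 2 3 (by decide)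
  · intro a b
    apply PS_comm
    fin_cases a <;> fin_cases b <;> simp [SA, ph, Fin.prod_univ_succ]
  · intro a b
    apply PS_comm
    fin_cases a <;> fin_cases b <;> simp [SB, ph, Fin.prod_univ_succ]

end Pool.Agent.Results.MP_7af562_mp.Q1
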