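import Pool.Agent.H99.Stab

namespace Pool.Agent.Results.MP_7af562_mp.Q2

open Pool.Agent.H99.StabDefs Pool.Agent.H99.Stab

/-- Generators `XXIIXX, IIXXXX, ZZZZIX`. -/
def Splus : Fin 3 → Fin 6 → Fin 4 :=
  ![![1, 1, 0, 0, 1, 1], ![0, 0, 1, 1, 1, 1], ![3, 3, 3, 3, 0, 1]]

/-- Generators `XXZXII, ZZXYII, IZZZXX`. -/
def Sminus : Fin 3 → Fin 6 → Fin 4 :=
  ![![1, 1, 3, 1, 0, 0], ![3, 3, 1, 2, 0, 0], ![0, 3, 3, 3, 1, 1]]

theorem result : ¬ LUEquiv (codespace Splus) (codespace Sminus) := by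
  refine not_equiv Splus Sminus ?_ ?_ (by decide) 1 2 (by decide)
  · intro a b
    apply PS_comm
    fin_cases a <;> fin_cases b <;> simp [Splus, ph, Fin.prod_univ_succ]
  · intro a b
    apply PS_comm
    fin_cases a <;> fin_cases b <;> simp [Sminus, ph, Fin.prod_univ_succ]

end Pool.Agent.Results.MP_7af562_mp.Q2
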